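import Mathlib
import Pool.Agent.Helper95.KX.SMeas

/-!
# Almost every real number has a transcendence measure `exp (-C (d + log (1 + H))^3)`
-/

set_option autoImplicit false

namespace Pool.Agent.Helper64.KX

open MeasureTheory Set Filter Topology Polynomial

/-- sublevel sets of an integer polynomial -/
lemma sublevel (P : ℤ[X]) (hP : P ≠ 0) {d : ℕ} (hd : P.natDegree ≤ d) {L : ℝ} (hL : 0 ≤ L) :
    volume {x : ℝ | |aeval x P| < Real.exp (-(L * d))} ≤ ENNReal.ofReal (2 * d * Real.exp (-L)) := by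
  classical
  have hinj : Function.Injective (algebraMap ℤ ℂ) := by
    rw [algebraMap_int_eq]
    exact Int.cast_injective
  have hdeg : Multiset.card (P.aroots ℂ) = P.natDegree := by
    have h1 := (IsAlgClosed.splits (P.map (algebraMap ℤ ℂ))).natDegree_eq_card_roots
    rw [natDegree_map_eq_of_injective hinj] at h1
    exact h1.symm
  have hsub : {x : ℝ | |aeval x P| < Real.exp (-(L * d))} ⊆
      ⋃ z ∈ (P.aroots ℂ).toFinset, Ioo (z.re - Real.exp (-L)) (z.re + Real.exp (-L)) := by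
    intro x hx
    by_contra hne
    rw [mem_ofPred_eq] at hx
    have h1 : ∀ z ∈ P.aroots ℂ, Real.exp (-L) ≤ ‖(x : ℂ) - z‖ := by
      intro z hz
      by_contra hlt
      apply hne
      rw [mem_iUnion₂]
      refine ⟨z, Multiset.mem_toFinset.mpr hz, ?_⟩
      have h2 : |x - z.re| ≤ ‖(x : ℂ) - z‖ := by
        have := Complex.abs_re_le_norm ((x : ℂ) - z)
        simpa using this
      have h3 := abs_lt.mp (lt_of_le_of_lt h2 (not_le.mp hlt))
      constructor <;> linarith
    have h2 : ‖(aeval (x : ℂ) P)‖ = |aeval x P| := by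
      have : aeval (x : ℂ) P = ((aeval x P : ℝ) : ℂ) := Polynomial.aeval_algebraMap_apply ℂ x P
      rw [this, Complex.norm_real, Real.norm_eq_abs]
    have h3 : 1 ≤ ‖(algebraMap ℤ ℂ) P.leadingCoeff‖ := by
      rw [algebraMap_int_eq, eq_intCast, Complex.norm_intCast]
      have := Int.one_le_abs (leadingCoeff_ne_zero.mpr hP)
      exact_mod_cast this
    have h4 : Real.exp (-L) ^ P.natDegree ≤ ‖((P.aroots ℂ).map ((x : ℂ) - ·)).prod‖ := by
      rw [← hdeg]
      have : ∀ s : Multiset ℂ, (∀ z ∈ s, Real.exp (-L) ≤ ‖(x : ℂ) - z‖) →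
          Real.exp (-L) ^ Multiset.card s ≤ ‖(s.map ((x : ℂ) - ·)).prod‖ := by
        intro s
        induction s using Multiset.induction_on with
        | empty => intro _; simp
        | cons a s ih =>
          intro h
          rw [Multiset.card_cons, Multiset.map_cons, Multiset.prod_cons, norm_mul, pow_succ, mul_comm]
          exact mul_le_mul (h a (Multiset.mem_cons_self _ _)) (ih fun z hz => h z (Multiset.mem_cons_of_mem hz))
            (by positivity) (norm_nonneg _)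
      exact this _ h1
    have h5 : Real.exp (-(L * d)) ≤ |aeval x P| := by
      have h6 : aeval (x : ℂ) P = (algebraMap ℤ ℂ) P.leadingCoeff * ((P.aroots ℂ).map ((x : ℂ) - ·)).prod := by
        rw [← eval_map_algebraMap, ← leadingCoeff_map_of_injective hinj]
        exact (IsAlgClosed.splits (P.map (algebraMap ℤ ℂ))).eval_eq_prod_roots (x : ℂ)
      rw [← h2, h6, norm_mul]
      calc Real.exp (-(L * d)) ≤ Real.exp (-L) ^ P.natDegree := by
            rw [← Real.exp_nat_mul]
            apply Real.exp_le_exp.mpr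
            have : (P.natDegree : ℝ) ≤ d := by exact_mod_cast hd
            nlinarith
        _ = 1 * Real.exp (-L) ^ P.natDegree := (one_mul _).symm
        _ ≤ _ := mul_le_mul h3 h4 (by positivity) (norm_nonneg _)
    linarith
  calc volume {x : ℝ | |aeval x P| < Real.exp (-(L * d))} ≤
      volume (⋃ z ∈ (P.aroots ℂ).toFinset, Ioo (z.re - Real.exp (-L)) (z.re + Real.exp (-L))) := measure_mono hsub
    _ ≤ ∑ z ∈ (P.aroots ℂ).toFinset, volume (Ioo (z.re - Real.exp (-L)) (z.re + Real.exp (-L))) :=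
        measure_biUnion_finset_le _ _
    _ = (P.aroots ℂ).toFinset.card * ENNReal.ofReal (2 * Real.exp (-L)) := by
        rw [Finset.sum_congr rfl (g := fun _ => ENNReal.ofReal (2 * Real.exp (-L)))
          (fun z _ => by rw [Real.volume_Ioo]; congr 1; ring), Finset.sum_const, nsmul_eq_mul]
    _ ≤ (d : ENNReal) * ENNReal.ofReal (2 * Real.exp (-L)) := by
        gcongr
        exact_mod_cast (Multiset.toFinset_card_le _).trans (hdeg.le.trans hd)
    _ = ENNReal.ofReal (2 * d * Real.exp (-L)) := by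
        rw [← ENNReal.ofReal_natCast, ← ENNReal.ofReal_mul (Nat.cast_nonneg _)]
        congr 1
        ring

/-- the polynomial with given coefficients -/
noncomputable def Qc (d : ℕ) (c : Fin (d + 1) → ℤ) : ℤ[X] := ∑ i : Fin (d + 1), C (c i) * X ^ (i : ℕ)

lemma Qc_deg (d : ℕ) (c : Fin (d + 1) → ℤ) : (Qc d c).natDegree ≤ d := by
  unfold Qc
  refine natDegree_sum_le_of_forall_le _ _ fun i _ => ?_
  refine (natDegree_C_mul_X_pow_le _ _).trans ?_
  have := i.2
  omega

lemma Qc_coeff {d : ℕ} {P : ℤ[X]} (hd : P.natDegree ≤ d) : Qc d (fun i => P.coeff i) = P := by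
  unfold Qc
  rw [Fin.sum_univ_eq_sum_range (fun i => C (P.coeff i) * X ^ i) (d + 1)]
  simp_rw [C_mul_X_pow_eq_monomial]
  exact (P.as_sum_range' (d + 1) (by omega)).symm

/-- the exceptional set -/
def Bd (d H : ℕ) : Set ℝ := ⋃ c ∈ Fintype.piFinset (fun _ : Fin (d + 1) => Finset.Icc (-(H : ℤ)) H),
  {x : ℝ | Qc d c ≠ 0 ∧ |aeval x (Qc d c)| < Real.exp (-(4 * ((d : ℝ) + Real.log (1 + H)) ^ 2 * d))}

lemma Bd_vol {d H : ℕ} (hd : 1 ≤ d) (hH : 1 ≤ H) : volume (Bd d H) ≤
    ENNReal.ofReal (2 * Real.exp (-(d : ℝ)) * (1 / (1 + (H : ℝ)) ^ 2)) := by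
  set L : ℝ := (d : ℝ) + Real.log (1 + H) with hL
  have hd' : (1 : ℝ) ≤ d := by exact_mod_cast hd
  have hH' : (1 : ℝ) ≤ H := by exact_mod_cast hH
  have hl : Real.log 2 ≤ Real.log (1 + H) := Real.log_le_log (by norm_num) (by linarith)
  have hl2 : 0 < Real.log 2 := Real.log_pos (by norm_num)
  have hL1 : 1 ≤ L := by rw [hL]; linarith
  unfold Bd
  refine (measure_biUnion_finset_le _ _).trans ?_
  have h1 : ∀ c ∈ Fintype.piFinset (fun _ : Fin (d + 1) => Finset.Icc (-(H : ℤ)) H),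
      volume {x : ℝ | Qc d c ≠ 0 ∧ |aeval x (Qc d c)| < Real.exp (-(4 * L ^ 2 * d))} ≤
        ENNReal.ofReal (2 * d * Real.exp (-(4 * L ^ 2))) := by
    intro c _
    by_cases h0 : Qc d c = 0
    · have : {x : ℝ | Qc d c ≠ 0 ∧ |aeval x (Qc d c)| < Real.exp (-(4 * L ^ 2 * d))} = ∅ := by
        ext x
        simp [h0]
      rw [this, measure_empty]
      exact bot_le
    · refine (measure_mono ?_).trans (sublevel (Qc d c) h0 (Qc_deg d c) (L := 4 * L ^ 2) (by positivity))
      exact fun x hx => hx.2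
  refine (Finset.sum_le_sum h1).trans ?_
  rw [Finset.sum_const, nsmul_eq_mul, Fintype.card_piFinset, Finset.prod_const, Finset.card_univ, Fintype.card_fin,
    Int.card_Icc]
  have h2 : ((H : ℤ) + 1 - -(H : ℤ)).toNat = 2 * H + 1 := by omega
  rw [h2, ← ENNReal.ofReal_natCast, ← ENNReal.ofReal_mul (Nat.cast_nonneg _)]
  apply ENNReal.ofReal_le_ofReal
  push_cast
  have h3 : (2 * (H : ℝ) + 1) ^ (d + 1) ≤ Real.exp (L ^ 2) := by
    have h4 : 2 * (H : ℝ) + 1 ≤ Real.exp (2 * Real.log (1 + H)) := by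
      rw [two_mul (Real.log _), Real.exp_add, Real.exp_log (by linarith)]
      nlinarith
    calc (2 * (H : ℝ) + 1) ^ (d + 1) ≤ Real.exp (2 * Real.log (1 + H)) ^ (d + 1) := by gcongr
      _ = Real.exp ((d + 1 : ℕ) * (2 * Real.log (1 + H))) := by rw [Real.exp_nat_mul]
      _ ≤ Real.exp (L ^ 2) := by
          apply Real.exp_le_exp.mpr
          push_cast
          rw [hL]
          nlinarith [sq_nonneg ((d : ℝ) - Real.log (1 + H))]
  have h5 : (d : ℝ) ≤ Real.exp d := by linarith [Real.add_one_le_exp (d : ℝ)]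
  have h6 : Real.exp (-(2 * Real.log (1 + H))) = 1 / (1 + (H : ℝ)) ^ 2 := by
    rw [Real.exp_neg, two_mul, Real.exp_add, Real.exp_log (by linarith), one_div, sq]
  calc (2 * (H : ℝ) + 1) ^ (d + 1) * (2 * d * Real.exp (-(4 * L ^ 2))) ≤
      Real.exp (L ^ 2) * (2 * Real.exp d * Real.exp (-(4 * L ^ 2))) := by gcongr
    _ = 2 * Real.exp (L ^ 2 + d + -(4 * L ^ 2)) := by rw [Real.exp_add, Real.exp_add]; ring
    _ ≤ 2 * Real.exp (-(d : ℝ) + -(2 * Real.log (1 + H))) := by
        refine mul_le_mul_of_nonneg_left (Real.exp_le_exp.mpr ?_) (by norm_num)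
        have h7 : L ≤ L ^ 2 := by nlinarith
        linarith
    _ = _ := by rw [Real.exp_add, h6]; ring

/-- almost every real number has a transcendence measure with exponent `3` -/
theorem meas_ae : ∀ᵐ θ : ℝ, ∃ C : ℝ, 0 < C ∧ ∀ (d H : ℕ) (P : ℤ[X]), P ≠ 0 → P.natDegree ≤ d →
    (∀ i, |P.coeff i| ≤ H) → Real.exp (-(C * ((d : ℝ) + Real.log (1 + H)) ^ 3)) ≤ |aeval θ P| := by
  have hsum : ∑' i : ℕ × ℕ, volume (Bd (i.1 + 1) (i.2 + 1)) ≠ ⊤ := by
    have h1 : Summable fun i : ℕ × ℕ => 2 * Real.exp (-((i.1 + 1 : ℕ) : ℝ)) * (1 / (1 + ((i.2 + 1 : ℕ) : ℝ)) ^ 2) := by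
      refine Summable.mul_of_nonneg (f := fun n : ℕ => 2 * Real.exp (-((n + 1 : ℕ) : ℝ)))
        (g := fun n : ℕ => 1 / (1 + ((n + 1 : ℕ) : ℝ)) ^ 2) ?_ ?_ (fun n => by positivity) (fun n => by positivity)
      · refine Summable.mul_left 2 ?_
        have h2 : Summable fun n : ℕ => Real.exp (-1) ^ (n + 1) :=
          (summable_nat_add_iff 1).mpr (summable_geometric_of_lt_one (Real.exp_nonneg _)
            (by rw [Real.exp_lt_one_iff]; norm_num))
        refine h2.congr fun n => ?_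
        rw [← Real.exp_nat_mul]
        congr 1
        ring
      · have h2 : Summable fun n : ℕ => 1 / ((n : ℝ)) ^ 2 := Real.summable_one_div_nat_pow.mpr (by norm_num)
        have h3 := (summable_nat_add_iff 2).mpr h2
        refine h3.congr fun n => ?_
        push_cast
        congr 2
        ring
    have h2 := h1.tsum_ofReal_ne_top
    refine ne_top_of_le_ne_top h2 (ENNReal.tsum_le_tsum fun i => ?_)
    exact Bd_vol (by omega) (by omega)
  filter_upwards [ae_finite_setOfPred_mem hsum] with θ hθ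
  -- all pairs with a large first entry are good
  obtain ⟨N, hN⟩ : ∃ N : ℕ, ∀ i : ℕ × ℕ, θ ∈ Bd (i.1 + 1) (i.2 + 1) → i.1 < N := by
    obtain ⟨N, hN⟩ := (hθ.image Prod.fst).bddAbove
    exact ⟨N + 1, fun i hi => Nat.lt_succ_of_le (hN ⟨i, hi, rfl⟩)⟩
  refine ⟨4 * ((N : ℝ) + 1) ^ 3, by positivity, fun d H P hP hd hc => ?_⟩
  by_cases hH : H = 0
  · exfalso
    apply hP
    ext i
    have := hc i
    rw [hH] at this
    simpa using this
  by_cases hd0 : d = 0
  · have h1 : P = C (P.coeff 0) := eq_C_of_natDegree_le_zero (by omega)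
    rw [h1, aeval_C]
    have h2 : P.coeff 0 ≠ 0 := fun h => hP (by rw [h1, h, C_0])
    have h3 : (1 : ℝ) ≤ |((algebraMap ℤ ℝ) (P.coeff 0))| := by
      rw [algebraMap_int_eq, eq_intCast]
      exact_mod_cast Int.one_le_abs h2
    refine le_trans ?_ h3
    rw [Real.exp_le_one_iff, neg_nonpos]
    have : 0 ≤ Real.log (1 + (H : ℝ)) := Real.log_nonneg (by linarith [Nat.cast_nonneg (α := ℝ) H])
    positivity
  have hgood : θ ∉ Bd (d + N) H := by
    intro hbad
    have e1 : d + N = (d + N - 1) + 1 := by omega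
    have e2 : H = (H - 1) + 1 := by omega
    rw [e1, e2] at hbad
    have := hN (d + N - 1, H - 1) hbad
    simp only at this
    omega
  have h1 : Real.exp (-(4 * (((d + N : ℕ) : ℝ) + Real.log (1 + H)) ^ 2 * ((d + N : ℕ) : ℝ))) ≤ |aeval θ P| := by
    by_contra hlt
    apply hgood
    unfold Bd
    rw [mem_iUnion₂]
    refine ⟨fun i => P.coeff i, ?_, ?_⟩
    · rw [Fintype.mem_piFinset]
      intro i
      rw [Finset.mem_Icc]
      exact abs_le.mp (hc i)
    · rw [mem_ofPred_eq, Qc_coeff (by omega)]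
      exact ⟨hP, not_le.mp hlt⟩
  refine le_trans (Real.exp_le_exp.mpr ?_) h1
  apply neg_le_neg
  have hd1 : (1 : ℝ) ≤ d := by
    have : 1 ≤ d := by omega
    exact_mod_cast this
  have hl : 0 ≤ Real.log (1 + (H : ℝ)) := Real.log_nonneg (by linarith [Nat.cast_nonneg (α := ℝ) H])
  have hN0 : (0 : ℝ) ≤ N := Nat.cast_nonneg _
  set L : ℝ := (d : ℝ) + Real.log (1 + H) with hL
  have hL1 : 1 ≤ L := by rw [hL]; linarith
  push_cast
  have h2 : (d : ℝ) + N + Real.log (1 + H) ≤ (N + 1) * L := by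
    rw [show (d : ℝ) + N + Real.log (1 + H) = L + N by rw [hL]; ring]
    nlinarith
  have h3 : (d : ℝ) + N ≤ (N + 1) * L := by linarith
  calc 4 * ((d : ℝ) + N + Real.log (1 + H)) ^ 2 * (d + N) ≤ 4 * ((N + 1) * L) ^ 2 * ((N + 1) * L) := by gcongr
    _ = 4 * ((N : ℝ) + 1) ^ 3 * L ^ 3 := by ring

/-- almost every real number has a measure for sparse polynomials -/
theorem smeas_ae : ∀ᵐ θ : ℝ, Pool.Agent.Helper95.KX.SMeas θ := by
  filter_upwards [meas_ae] with θ hθ
  obtain ⟨C, hC, h⟩ := hθ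
  exact fun k => ⟨3, C, hC, fun d H P hP hd _ hc => h d H P hP hd hc⟩

end Pool.Agent.Helper64.KX
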