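import Mathlib

/-!
# Linear independence measure for the powers of a real number: a bounded number of terms
-/

set_option autoImplicit false

namespace Pool.Agent.Helper64.KX

/-- sums of at most `k` powers of `θ` of degree at most `d`, with integer coefficients of absolute value at most `H`,
not all zero, are at least `exp (-C (d + log (1 + H)) ^ A)` -/
def Meas (θ : ℝ) : Prop := ∀ k : ℕ, ∃ (A : ℕ) (C : ℝ), 0 < C ∧ ∀ (d H : ℕ) (S : Finset ℕ) (h : ℕ → ℤ),
  S.card ≤ k → (∀ n ∈ S, n ≤ d) → (∀ n ∈ S, |h n| ≤ H) → (∃ n ∈ S, h n ≠ 0) →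
    Real.exp (-(C * ((d : ℝ) + Real.log (1 + H)) ^ A)) ≤ |∑ n ∈ S, (h n : ℝ) * θ ^ n|

end Pool.Agent.Helper64.KX
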