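import Pool.Agent.Helper78.KX.Defs

/-!
# KX block X1b: the cluster estimate
-/

set_option autoImplicit false

namespace Pool.Agent.Helper64.KX

open MeasureTheory Set Filter Topology Pool.Agent.Helper18.GP Pool.Agent.Helper82.FK
open Pool.Agent.Helper78.KX

/-- the oscillating integral with weight -/
noncomputable def RR (θ : ℝ) (H : ℕ) (c : ℤ → ℂ) (κ : ℝ) (σ : ℕ → ℝ) (p q : ℝ) (j : ℕ) (y : ℝ) : ℂ :=
  ∫ x in p..q, e (κ * x * θ ^ j * y) * ∏ n ∈ Finset.range j, gp H c (κ * x * θ ^ n + σ n)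

/-- the mass -/
noncomputable def ZZ (θ : ℝ) (g : ℝ → ℝ) (κ : ℝ) (σ : ℕ → ℝ) (p q : ℝ) (j : ℕ) : ℝ :=
  ∫ x in p..q, ∏ n ∈ Finset.range j, g (κ * x * θ ^ n + σ n)

section

variable {θ : ℝ} {H : ℕ} {c : ℤ → ℂ} {g : ℝ → ℝ} {κ : ℝ} {σ : ℕ → ℝ} {p q : ℝ}

lemma cont_prod (j : ℕ) : Continuous fun x : ℝ => ∏ n ∈ Finset.range j, gp H c (κ * x * θ ^ n + σ n) :=
  continuous_finsetProd _ fun n _ => (gp_cont H c).comp (by fun_prop)

lemma cont_int (j : ℕ) (y : ℝ) : Continuous fun x : ℝ => e (κ * x * θ ^ j * y) *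
    ∏ n ∈ Finset.range j, gp H c (κ * x * θ ^ n + σ n) :=
  (continuous_e.comp (by fun_prop)).mul (cont_prod j)

lemma RR_zero_y (hg : ∀ t, gp H c t = g t) (j : ℕ) :
    RR θ H c κ σ p q j 0 = ((ZZ θ g κ σ p q j : ℝ) : ℂ) := by
  unfold RR ZZ
  rw [← intervalIntegral.integral_ofReal]
  congr 1
  funext x
  rw [mul_zero, e_zero, one_mul]
  push_cast
  exact Finset.prod_congr rfl fun n _ => hg _

lemma RR_le (hg : ∀ t, gp H c t = g t) (hg0 : ∀ t, 0 ≤ g t) (hpq : p ≤ q) (j : ℕ) (y : ℝ) :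
    ‖RR θ H c κ σ p q j y‖ ≤ ZZ θ g κ σ p q j := by
  unfold RR ZZ
  refine (intervalIntegral.norm_integral_le_integral_norm hpq).trans (le_of_eq ?_)
  congr 1
  funext x
  rw [norm_mul, norm_e, one_mul, norm_prod]
  refine Finset.prod_congr rfl fun n _ => ?_
  rw [hg, Complex.norm_real, Real.norm_eq_abs, abs_of_nonneg (hg0 _)]

lemma RR_succ (j : ℕ) (y : ℝ) : RR θ H c κ σ p q (j + 1) y =
    ∑ h ∈ Finset.Icc (-(H : ℤ)) H, c h * e (h * σ j) * RR θ H c κ σ p q j (θ * y + h) := by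
  unfold RR
  have hterm : ∀ x : ℝ, e (κ * x * θ ^ (j + 1) * y) * ∏ n ∈ Finset.range (j + 1), gp H c (κ * x * θ ^ n + σ n) =
      ∑ h ∈ Finset.Icc (-(H : ℤ)) H, c h * e (h * σ j) * (e (κ * x * θ ^ j * (θ * y + h)) *
        ∏ n ∈ Finset.range j, gp H c (κ * x * θ ^ n + σ n)) := by
    intro x
    rw [Finset.prod_range_succ]
    have h4 : gp H c (κ * x * θ ^ j + σ j) = ∑ h ∈ Finset.Icc (-(H : ℤ)) H, c h * e (h * (κ * x * θ ^ j + σ j)) := rfl
    rw [h4, ← mul_assoc, Finset.mul_sum]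
    refine Finset.sum_congr rfl fun h _ => ?_
    have h5 : (h : ℝ) * (κ * x * θ ^ j + σ j) = h * σ j + κ * x * θ ^ j * h := by ring
    have h6 : κ * x * θ ^ j * (θ * y + h) = κ * x * θ ^ (j + 1) * y + κ * x * θ ^ j * h := by ring
    rw [h5, h6, e_add, e_add]
    ring
  simp_rw [hterm]
  have hcont : ∀ h : ℤ, Continuous fun x : ℝ => c h * e (h * σ j) * (e (κ * x * θ ^ j * (θ * y + h)) *
        ∏ n ∈ Finset.range j, gp H c (κ * x * θ ^ n + σ n)) := fun h => continuous_const.mul (cont_int j _)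
  rw [intervalIntegral.integral_finsetSum fun h _ => (hcont h).intervalIntegrable _ _]
  exact Finset.sum_congr rfl fun h _ => intervalIntegral.integral_const_mul _ _

lemma RR_zero {y : ℝ} (hκ : 0 < κ) (hpq : 1 ≤ κ * (q - p)) (hy : y ≠ 0) :
    ‖RR θ H c κ σ p q 0 y‖ ≤ (q - p) / |y| := by
  have hq : 0 < q - p := by
    by_contra h
    have : κ * (q - p) ≤ 0 := mul_nonpos_of_nonneg_of_nonpos hκ.le (not_lt.mp h)
    linarith
  unfold RR
  have h1 : ∀ x : ℝ, e (κ * x * θ ^ 0 * y) * ∏ n ∈ Finset.range 0, gp H c (κ * x * θ ^ n + σ n) =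
      Complex.exp (((2 * Real.pi * (κ * y) : ℝ) * Complex.I) * x) := by
    intro x
    rw [Finset.prod_range_zero, mul_one]
    unfold e
    congr 1
    push_cast
    ring
  simp_rw [h1]
  have hne : ((2 * Real.pi * (κ * y) : ℝ) * Complex.I) ≠ 0 := by
    refine mul_ne_zero ?_ Complex.I_ne_zero
    rw [Ne, Complex.ofReal_eq_zero]
    have := Real.pi_pos
    positivity
  have habs : |2 * Real.pi * (κ * y)| = 2 * Real.pi * (κ * |y|) := by
    have := Real.pi_pos
    rw [abs_mul, abs_mul κ, abs_of_pos hκ, abs_of_pos (by positivity : (0 : ℝ) < 2 * Real.pi)]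
  rw [integral_exp_mul_complex hne, norm_div, norm_mul, Complex.norm_I, mul_one, Complex.norm_real,
    Real.norm_eq_abs, habs]
  have h2 : ‖Complex.exp (((2 * Real.pi * (κ * y) : ℝ) * Complex.I) * q) -
      Complex.exp (((2 * Real.pi * (κ * y) : ℝ) * Complex.I) * p)‖ ≤ 2 := by
    refine (norm_sub_le _ _).trans ?_
    have h3 : ∀ t : ℝ, ‖Complex.exp (((2 * Real.pi * (κ * y) : ℝ) * Complex.I) * t)‖ = 1 := by
      intro t
      have : ((2 * Real.pi * (κ * y) : ℝ) * Complex.I) * t = ((2 * Real.pi * (κ * y) * t : ℝ) : ℂ) * Complex.I := by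
        push_cast; ring
      rw [this]
      exact Complex.norm_exp_ofReal_mul_I _
    rw [h3, h3]
    norm_num
  have hy0 : 0 < |y| := abs_pos.mpr hy
  rw [div_le_div_iff₀ (by have := Real.pi_pos; positivity) hy0]
  have hpi := Real.pi_gt_three
  calc ‖Complex.exp (((2 * Real.pi * (κ * y) : ℝ) * Complex.I) * q) -
      Complex.exp (((2 * Real.pi * (κ * y) : ℝ) * Complex.I) * p)‖ * |y| ≤ 2 * |y| := by gcongr
    _ ≤ 2 * Real.pi * (κ * (q - p)) * |y| := by
        have : 2 ≤ 2 * Real.pi * (κ * (q - p)) := by nlinarith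
        gcongr
    _ = (q - p) * (2 * Real.pi * (κ * |y|)) := by ring

/-- the sum over the nonzero digits -/
lemma RR_succ' (hc0 : c 0 = 1) (j : ℕ) (y : ℝ) : RR θ H c κ σ p q (j + 1) y = RR θ H c κ σ p q j (θ * y) +
    ∑ h ∈ (Finset.Icc (-(H : ℤ)) H).erase 0, c h * e (h * σ j) * RR θ H c κ σ p q j (θ * y + h) := by
  rw [RR_succ, ← Finset.add_sum_erase _ _ (show (0 : ℤ) ∈ Finset.Icc (-(H : ℤ)) H by
    rw [Finset.mem_Icc]; constructor <;> omega), hc0]
  simp [e_zero]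

lemma nm_erase (hc0 : c 0 = 1) {s : ℝ} (hs : nm H c ≤ 1 + s) :
    ∑ h ∈ (Finset.Icc (-(H : ℤ)) H).erase 0, ‖c h‖ ≤ s := by
  unfold nm at hs
  rw [← Finset.add_sum_erase _ _ (show (0 : ℤ) ∈ Finset.Icc (-(H : ℤ)) H by
    rw [Finset.mem_Icc]; constructor <;> omega), hc0, norm_one] at hs
  linarith

/-- large values -/
lemma big (hθ : 1 < θ) (hκ : 0 < κ) (hpq : 1 ≤ κ * (q - p)) {s : ℝ} (hs : nm H c ≤ 1 + s) (j : ℕ) :
    ∀ y : ℝ, 2 * H / (θ - 1) + 1 ≤ |y| →
      ‖RR θ H c κ σ p q j y‖ ≤ (q - p) * ((1 + s) / ((1 + θ) / 2)) ^ j / |y| := by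
  have hq : 0 < q - p := by
    by_contra h
    have : κ * (q - p) ≤ 0 := mul_nonpos_of_nonneg_of_nonpos hκ.le (not_lt.mp h)
    linarith
  have hs0 : 0 ≤ 1 + s := (nm_nonneg H c).trans hs
  induction j with
  | zero =>
    intro y hy
    have hy0 : 0 < |y| := lt_of_lt_of_le (by have : 0 ≤ 2 * H / (θ - 1) := div_nonneg (by positivity) (by linarith)
                                             linarith) hy
    rw [pow_zero, mul_one]
    exact RR_zero hκ hpq (abs_pos.mp hy0)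
  | succ j ih =>
    intro y hy
    have hB0 : 0 ≤ 2 * H / (θ - 1) := div_nonneg (by positivity) (by linarith)
    have hy0 : 0 < |y| := by linarith
    have hyH : (H : ℝ) ≤ (θ - 1) / 2 * |y| := by
      have h1 : 2 * (H : ℝ) / (θ - 1) ≤ |y| := by linarith
      rw [div_le_iff₀ (by linarith)] at h1
      linarith
    rw [RR_succ]
    have hstep : ∀ h ∈ Finset.Icc (-(H : ℤ)) H, ‖c h * e (h * σ j) * RR θ H c κ σ p q j (θ * y + h)‖ ≤
        ‖c h‖ * ((q - p) * ((1 + s) / ((1 + θ) / 2)) ^ j / ((1 + θ) / 2 * |y|)) := by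
      intro h hh
      rw [Finset.mem_Icc] at hh
      rw [norm_mul, norm_mul, norm_e, mul_one]
      refine mul_le_mul_of_nonneg_left ?_ (norm_nonneg _)
      have hh1 : |(h : ℝ)| ≤ H := by
        rw [abs_le]
        constructor
        · exact_mod_cast hh.1
        · exact_mod_cast hh.2
      have h1 : (1 + θ) / 2 * |y| ≤ |θ * y + h| := by
        have h2 : |θ * y| ≤ |θ * y + h| + |(h : ℝ)| := by
          have := abs_sub (θ * y + h) (h : ℝ)
          rwa [add_sub_cancel_right] at this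
        rw [abs_mul, abs_of_pos (by linarith : 0 < θ)] at h2
        linarith
      have h3 : |y| ≤ (1 + θ) / 2 * |y| := by nlinarith
      refine (ih (θ * y + h) (hy.trans (h3.trans h1))).trans ?_
      have h4 : 0 < (1 + θ) / 2 * |y| := by nlinarith
      gcongr
    refine (norm_sum_le _ _).trans ((Finset.sum_le_sum hstep).trans ?_)
    rw [← Finset.sum_mul]
    have hX : 0 ≤ (q - p) * ((1 + s) / ((1 + θ) / 2)) ^ j / ((1 + θ) / 2 * |y|) := by positivity
    calc (∑ h ∈ Finset.Icc (-(H : ℤ)) H, ‖c h‖) * ((q - p) * ((1 + s) / ((1 + θ) / 2)) ^ j / ((1 + θ) / 2 * |y|)) ≤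
        (1 + s) * ((q - p) * ((1 + s) / ((1 + θ) / 2)) ^ j / ((1 + θ) / 2 * |y|)) :=
          mul_le_mul_of_nonneg_right hs hX
      _ = _ := by
          rw [pow_succ]
          field_simp

/-- few nonzero digits -/
lemma mid (hθ : 1 < θ) (hκ : 0 < κ) (hpq : 1 ≤ κ * (q - p)) {s : ℝ} (hs : nm H c ≤ 1 + s) (hs0 : 0 ≤ s)
    (hc0 : c 0 = 1) (hg : ∀ t, gp H c t = g t) (hg0 : ∀ t, 0 ≤ g t) {c₀ : ℝ} (hc₀ : 0 < c₀) (t : ℕ) :
    ∀ (m j : ℕ) (b y : ℝ), c₀ ≤ b → Gd θ H m b y → 2 * H / (θ - 1) + 1 ≤ b * θ ^ t →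
      (∀ i < j, ZZ θ g κ σ p q i ≤ 2 * (q - p)) →
      ‖RR θ H c κ σ p q j y‖ ≤ (q - p) * (((1 + s) / ((1 + θ) / 2)) ^ j * ((1 + θ) / 2) ^ t * (1 + 1 / c₀) +
        2 * (2 ^ t * s) ^ (m + 1)) := by
  have hq : 0 < q - p := by
    by_contra h
    have : κ * (q - p) ≤ 0 := mul_nonpos_of_nonneg_of_nonpos hκ.le (not_lt.mp h)
    linarith
  have hGd : ∀ m b y, Gd θ H m b y → b ≤ |y| := by
    intro m b y h
    cases m with
    | zero => exact h
    | succ m => exact h.1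
  have hB0 : 0 ≤ 2 * (H : ℝ) / (θ - 1) := div_nonneg (by positivity) (by linarith)
  have hr0 : 0 ≤ (1 + s) / ((1 + θ) / 2) := by positivity
  induction t with
  | zero =>
    intro m j b y hb hG hB _
    rw [pow_zero, mul_one] at hB
    have hy := hGd m b y hG
    have hy1 : 1 ≤ |y| := by linarith
    refine (big hθ hκ hpq hs j y (hB.trans hy)).trans ?_
    have h1 : 0 ≤ (q - p) * ((1 + s) / ((1 + θ) / 2)) ^ j := by positivity
    calc (q - p) * ((1 + s) / ((1 + θ) / 2)) ^ j / |y| ≤ (q - p) * ((1 + s) / ((1 + θ) / 2)) ^ j := div_le_self h1 hy1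
      _ = (q - p) * (((1 + s) / ((1 + θ) / 2)) ^ j * ((1 + θ) / 2) ^ 0 * (1 + 0) + 0) := by ring
      _ ≤ _ := by gcongr <;> positivity
  | succ t ih =>
    intro m j b y hb hG hB hZ
    have hy := hGd m b y hG
    have hy0 : 0 < |y| := by linarith
    cases j with
    | zero =>
      refine (RR_zero hκ hpq (abs_pos.mp hy0)).trans ?_
      have h1 : (q - p) / |y| ≤ (q - p) * (1 / c₀) := by
        rw [div_eq_mul_one_div]
        gcongr
        exact hb.trans hy
      refine h1.trans ?_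
      have h2 : 1 ≤ ((1 + θ) / 2) ^ (t + 1) := one_le_pow₀ (by linarith)
      gcongr
      rw [pow_zero, one_mul]
      have h3 : 0 < 1 / c₀ := by positivity
      have h4 : 0 ≤ 2 * (2 ^ (t + 1) * s) ^ (m + 1) := by positivity
      nlinarith
    | succ j =>
      have hZ' : ∀ i < j, ZZ θ g κ σ p q i ≤ 2 * (q - p) := fun i hi => hZ i (by omega)
      have hθ0 : 0 < θ := by linarith
      have hbθ : c₀ ≤ b * θ := by nlinarith
      have hBt : 2 * H / (θ - 1) + 1 ≤ b * θ * θ ^ t := by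
        calc _ ≤ b * θ ^ (t + 1) := hB
          _ = _ := by ring
      -- the digit zero
      have hG0 : Gd θ H m (b * θ) (θ * y) := by
        cases m with
        | zero =>
          show b * θ ≤ |θ * y|
          rw [abs_mul, abs_of_pos hθ0]
          nlinarith
        | succ m =>
          refine ⟨?_, fun d h hh hhH => ?_⟩
          · rw [abs_mul, abs_of_pos hθ0]
            nlinarith
          · have h1 := hG.2 (d + 1) h hh hhH
            have e1 : b * θ * θ ^ (d + 1) = b * θ ^ (d + 1 + 1) := by ring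
            have e2 : θ * y * θ ^ (d + 1) + h = y * θ ^ (d + 1 + 1) + h := by ring
            rw [e1, e2]
            exact h1
      have h0 := ih m j (b * θ) (θ * y) hbθ hG0 hBt hZ'
      -- the other digits
      have hne : ∀ h ∈ (Finset.Icc (-(H : ℤ)) H).erase 0, ‖c h * e (h * σ j) * RR θ H c κ σ p q j (θ * y + h)‖ ≤
          ‖c h‖ * ((q - p) * (((1 + s) / ((1 + θ) / 2)) ^ j * ((1 + θ) / 2) ^ t * (1 + 1 / c₀) +
            2 * (2 ^ t * s) ^ m)) := by
        intro h hh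
        obtain ⟨hh0, hh1⟩ := Finset.mem_erase.mp hh
        rw [Finset.mem_Icc] at hh1
        rw [norm_mul, norm_mul, norm_e, mul_one]
        refine mul_le_mul_of_nonneg_left ?_ (norm_nonneg _)
        cases m with
        | zero =>
          refine (RR_le hg hg0 (by linarith) j _).trans ((hZ j (by omega)).trans ?_)
          have h1 : 0 ≤ ((1 + s) / ((1 + θ) / 2)) ^ j * ((1 + θ) / 2) ^ t * (1 + 1 / c₀) := by positivity
          rw [pow_zero, mul_one]
          nlinarith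
        | succ m =>
          have h1 := hG.2 0 h hh0 (abs_le.mpr ⟨hh1.1, hh1.2⟩)
          rw [zero_add, pow_one] at h1
          have e2 : θ * y + h = y * θ + h := by ring
          rw [e2]
          exact ih m j (b * θ) (y * θ + h) hbθ h1 hBt hZ'
      rw [RR_succ' hc0]
      refine (norm_add_le _ _).trans ?_
      have h1 : ‖∑ h ∈ (Finset.Icc (-(H : ℤ)) H).erase 0, c h * e (h * σ j) * RR θ H c κ σ p q j (θ * y + h)‖ ≤
          s * ((q - p) * (((1 + s) / ((1 + θ) / 2)) ^ j * ((1 + θ) / 2) ^ t * (1 + 1 / c₀) +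
            2 * (2 ^ t * s) ^ m)) := by
        refine (norm_sum_le _ _).trans ((Finset.sum_le_sum hne).trans ?_)
        rw [← Finset.sum_mul]
        exact mul_le_mul_of_nonneg_right (nm_erase hc0 hs) (by positivity)
      refine (add_le_add h0 h1).trans ?_
      have e1 : (q - p) * (((1 + s) / ((1 + θ) / 2)) ^ j * ((1 + θ) / 2) ^ t * (1 + 1 / c₀) +
          2 * (2 ^ t * s) ^ (m + 1)) + s * ((q - p) * (((1 + s) / ((1 + θ) / 2)) ^ j * ((1 + θ) / 2) ^ t * (1 + 1 / c₀) +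
            2 * (2 ^ t * s) ^ m)) =
          (q - p) * (((1 + s) * ((1 + s) / ((1 + θ) / 2)) ^ j * ((1 + θ) / 2) ^ t * (1 + 1 / c₀)) +
            2 * ((2 ^ t * s) ^ (m + 1) + s * (2 ^ t * s) ^ m)) := by ring
      rw [e1]
      have e2 : (1 + s) * ((1 + s) / ((1 + θ) / 2)) ^ j * ((1 + θ) / 2) ^ t =
          ((1 + s) / ((1 + θ) / 2)) ^ (j + 1) * ((1 + θ) / 2) ^ (t + 1) := by
        rw [pow_succ, pow_succ]
        have : (1 + θ) / 2 ≠ 0 := by positivity
        field_simp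
      rw [e2]
      have h2 : (2 ^ t * s) ^ (m + 1) + s * (2 ^ t * s) ^ m ≤ (2 ^ (t + 1) * s) ^ (m + 1) := by
        have h3 : s * (2 ^ t * s) ^ m ≤ (2 ^ t * s) ^ (m + 1) := by
          rw [pow_succ, mul_comm]
          have h4 : (1 : ℝ) ≤ 2 ^ t := one_le_pow₀ (by norm_num)
          have h5 : s ≤ 2 ^ t * s := by nlinarith
          gcongr
        have h6 : (2 ^ (t + 1) * s) ^ (m + 1) = 2 ^ (m + 1) * (2 ^ t * s) ^ (m + 1) := by
          rw [← mul_pow]; ring
        have h7 : (2 : ℝ) ≤ 2 ^ (m + 1) := by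
          calc (2 : ℝ) = 2 ^ 1 := by norm_num
            _ ≤ 2 ^ (m + 1) := pow_le_pow_right₀ (by norm_num) (by omega)
        have h8 : 0 ≤ (2 ^ t * s) ^ (m + 1) := by positivity
        rw [h6]
        nlinarith
      gcongr

/-- the increments of the mass -/
lemma incr (hc0 : c 0 = 1) (hg : ∀ t, gp H c t = g t) {s X : ℝ} (hs : nm H c ≤ 1 + s) (hX : 0 ≤ X) (j : ℕ)
    (h : ∀ h : ℤ, h ≠ 0 → |h| ≤ H → ‖RR θ H c κ σ p q j h‖ ≤ X) :
    |ZZ θ g κ σ p q (j + 1) - ZZ θ g κ σ p q j| ≤ s * X := by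
  have h1 := RR_zero_y (θ := θ) (κ := κ) (σ := σ) (p := p) (q := q) hg (j + 1)
  rw [RR_succ' hc0, mul_zero, RR_zero_y hg j] at h1
  have h2 : (((ZZ θ g κ σ p q (j + 1) - ZZ θ g κ σ p q j : ℝ)) : ℂ) =
      ∑ h ∈ (Finset.Icc (-(H : ℤ)) H).erase 0, c h * e (h * σ j) * RR θ H c κ σ p q j (0 + h) := by
    push_cast
    rw [← h1]
    ring
  rw [← Real.norm_eq_abs, ← Complex.norm_real, h2]
  refine (norm_sum_le _ _).trans ?_
  have h3 : ∀ k ∈ (Finset.Icc (-(H : ℤ)) H).erase 0, ‖c k * e (k * σ j) * RR θ H c κ σ p q j (0 + k)‖ ≤ ‖c k‖ * X := by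
    intro k hk
    obtain ⟨hh0, hh1⟩ := Finset.mem_erase.mp hk
    rw [Finset.mem_Icc] at hh1
    rw [norm_mul, norm_mul, norm_e, mul_one, zero_add]
    exact mul_le_mul_of_nonneg_left (h k hh0 (abs_le.mpr ⟨hh1.1, hh1.2⟩)) (norm_nonneg _)
  refine (Finset.sum_le_sum h3).trans ?_
  rw [← Finset.sum_mul]
  exact mul_le_mul_of_nonneg_right (nm_erase hc0 hs) hX

end

theorem cluster {θ : ℝ} (hθ : 1 < θ) (H k : ℕ) {c₀ : ℝ} (hc₀ : 0 < c₀)
    (hfew : ∀ h : ℤ, h ≠ 0 → |h| ≤ H → Gd θ H k c₀ h) :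
    ∃ C s₀ : ℝ, 0 < C ∧ 0 < s₀ ∧ ∀ (c : ℤ → ℂ) (g : ℝ → ℝ) (s : ℝ), (∀ t, gp H c t = g t) → (∀ t, 0 ≤ g t) →
      c 0 = 1 → nm H c ≤ 1 + s → s ≤ s₀ → ∀ N : ℕ, N * s ^ k ≤ 1 → ∀ (κ : ℝ) (σ : ℕ → ℝ) (p q : ℝ), 0 < κ →
      1 ≤ κ * (q - p) → |(∫ x in p..q, ∏ n ∈ Finset.range N, g (κ * x * θ ^ n + σ n)) - (q - p)| ≤ C * s * (q - p) := by
  have hθ0 : 0 < θ := by linarith
  -- the number of steps
  obtain ⟨D, hD⟩ : ∃ D : ℕ, 2 * H / (θ - 1) + 1 ≤ c₀ * θ ^ D := by
    obtain ⟨D, hD⟩ := pow_unbounded_of_one_lt ((2 * H / (θ - 1) + 1) / c₀) hθ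
    refine ⟨D, ?_⟩
    rw [div_lt_iff₀ hc₀] at hD
    linarith
  set θ' : ℝ := (1 + θ) / 2 with hθ'
  have hθ'1 : 1 < θ' := by rw [hθ']; linarith
  -- the ratio
  set r₀ : ℝ := (1 + θ') / 2 / θ' with hr₀
  have hr₀0 : 0 ≤ r₀ := by positivity
  have hr₀1 : r₀ < 1 := by
    rw [hr₀, div_lt_one (by linarith)]
    linarith
  set A : ℝ := θ' ^ D * (1 + 1 / c₀) with hA
  have hA0 : 0 < A := by positivity
  set E : ℝ := 2 * (2 ^ D) ^ (k + 1) with hE
  have hE0 : 0 < E := by positivity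
  set C : ℝ := A / (1 - r₀) + E with hC
  have hC0 : 0 < C := by
    have : 0 < 1 - r₀ := by linarith
    positivity
  refine ⟨C, min (min ((θ' - 1) / 2) 1) (1 / C), hC0, by
    have : 0 < (θ' - 1) / 2 := by linarith
    positivity, ?_⟩
  intro c g s hg hg0 hc0 hs hss N hN κ σ p q hκ hpq
  have hq : 0 < q - p := by
    by_contra h
    have : κ * (q - p) ≤ 0 := mul_nonpos_of_nonneg_of_nonpos hκ.le (not_lt.mp h)
    linarith
  have hs0 : 0 ≤ s := (Finset.sum_nonneg fun h _ => norm_nonneg _).trans (nm_erase hc0 hs)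
  have hs1 : s ≤ (θ' - 1) / 2 := hss.trans ((min_le_left _ _).trans (min_le_left _ _))
  have hs2 : s ≤ 1 := hss.trans ((min_le_left _ _).trans (min_le_right _ _))
  have hs3 : s ≤ 1 / C := hss.trans (min_le_right _ _)
  have hr : (1 + s) / θ' ≤ r₀ := by
    rw [hr₀]
    gcongr
    linarith
  have hr0 : 0 ≤ (1 + s) / θ' := by positivity
  -- strong induction
  have key : ∀ M : ℕ, M ≤ N → (∀ i < M, ZZ θ g κ σ p q i ≤ 2 * (q - p)) ∧
      |ZZ θ g κ σ p q M - (q - p)| ≤ C * s * (q - p) := by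
    intro M hM
    induction M with
    | zero =>
      refine ⟨fun i hi => absurd hi (Nat.not_lt_zero _), ?_⟩
      have : ZZ θ g κ σ p q 0 = q - p := by
        unfold ZZ
        simp
      rw [this, sub_self, abs_zero]
      positivity
    | succ M ih =>
      obtain ⟨i1, i2⟩ := ih (by omega)
      have hZM : ∀ i < M + 1, ZZ θ g κ σ p q i ≤ 2 * (q - p) := by
        intro i hi
        rcases Nat.lt_succ_iff_lt_or_eq.mp hi with h | h
        · exact i1 i h
        · subst h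
          have h1 := (abs_le.mp i2).2
          have h2 : C * s ≤ 1 := by
            rw [le_div_iff₀ hC0] at hs3
            linarith
          nlinarith
      refine ⟨hZM, ?_⟩
      -- the increments
      have hinc : ∀ j ∈ Finset.range (M + 1), |ZZ θ g κ σ p q (j + 1) - ZZ θ g κ σ p q j| ≤
          s * ((q - p) * (r₀ ^ j * A + E * s ^ (k + 1))) := by
        intro j hj
        rw [Finset.mem_range] at hj
        refine incr hc0 hg hs (by positivity) j fun h hh hhH => ?_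
        refine (mid hθ hκ hpq hs hs0 hc0 hg hg0 hc₀ D k j c₀ h le_rfl (hfew h hh hhH) hD
          (fun i hi => hZM i (by omega))).trans ?_
        rw [← hθ']
        have e1 : ((1 + s) / θ') ^ j * θ' ^ D * (1 + 1 / c₀) + 2 * (2 ^ D * s) ^ (k + 1) =
            ((1 + s) / θ') ^ j * A + E * s ^ (k + 1) := by
          rw [hA, hE, mul_pow]
          ring
        rw [e1]
        gcongr
      have htel : ZZ θ g κ σ p q (M + 1) - (q - p) =
          ∑ j ∈ Finset.range (M + 1), (ZZ θ g κ σ p q (j + 1) - ZZ θ g κ σ p q j) := by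
        rw [Finset.sum_range_sub (fun j => ZZ θ g κ σ p q j)]
        congr 1
        unfold ZZ
        simp
      rw [htel]
      refine (Finset.abs_sum_le_sum_abs _ _).trans ((Finset.sum_le_sum hinc).trans ?_)
      rw [← Finset.mul_sum, ← Finset.mul_sum, Finset.sum_add_distrib, ← Finset.sum_mul, Finset.sum_const,
        Finset.card_range, nsmul_eq_mul]
      have g1 : ∑ j ∈ Finset.range (M + 1), r₀ ^ j ≤ 1 / (1 - r₀) := by
        rw [geom_sum_eq hr₀1.ne]
        have h1 : 0 < 1 - r₀ := by linarith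
        have e1 : (r₀ ^ (M + 1) - 1) / (r₀ - 1) = (1 - r₀ ^ (M + 1)) / (1 - r₀) := by
          rw [← neg_div_neg_eq]; congr 1 <;> ring
        rw [e1]
        have : 0 ≤ r₀ ^ (M + 1) := by positivity
        gcongr
        linarith
      have g2 : ((M + 1 : ℕ) : ℝ) * (E * s ^ (k + 1)) ≤ E := by
        have h1 : ((M + 1 : ℕ) : ℝ) ≤ N := by exact_mod_cast hM
        calc ((M + 1 : ℕ) : ℝ) * (E * s ^ (k + 1)) ≤ (N : ℝ) * (E * s ^ (k + 1)) := by gcongr
          _ = E * ((N * s ^ k) * s) := by ring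
          _ ≤ E * (1 * 1) := by gcongr
          _ = E := by ring
      calc s * ((q - p) * ((∑ j ∈ Finset.range (M + 1), r₀ ^ j) * A + ((M + 1 : ℕ) : ℝ) * (E * s ^ (k + 1)))) ≤
          s * ((q - p) * (1 / (1 - r₀) * A + E)) := by gcongr
        _ = C * s * (q - p) := by rw [hC]; ring
  exact (key N le_rfl).2

end Pool.Agent.Helper64.KX
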