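import Pool.Agent.Helper78.KX.Defs2
import Pool.Agent.Helper64.KX.X1b

/-!
# KX block X1b': the cluster estimate, explicit in the number of steps
-/

set_option autoImplicit false

namespace Pool.Agent.Helper64.KX

open MeasureTheory Set Filter Topology Pool.Agent.Helper18.GP Pool.Agent.Helper82.FK
open Pool.Agent.Helper78.KX

section

variable {θ : ℝ} {H : ℕ} {c : ℤ → ℂ} {g : ℝ → ℝ} {κ : ℝ} {σ : ℕ → ℝ} {p q : ℝ}

/-- few nonzero digits -/
lemma mid' (hθ : 1 < θ) (hκ : 0 < κ) (hpq : 1 ≤ κ * (q - p)) {s : ℝ} (hs : nm H c ≤ 1 + s) (hs0 : 0 ≤ s)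
    (hc0 : c 0 = 1) (hg : ∀ t, gp H c t = g t) (hg0 : ∀ t, 0 ≤ g t) {c₀ : ℝ} (hc₀ : 0 < c₀) (t : ℕ) :
    ∀ (m j : ℕ) (b y : ℝ), c₀ ≤ b → Gd θ H m b y → 2 * H / (θ - 1) + 1 ≤ b * θ ^ t →
      (∀ i < j, ZZ θ g κ σ p q i ≤ 2 * (q - p)) →
      ‖RR θ H c κ σ p q j y‖ ≤ (q - p) * (((1 + s) / ((1 + θ) / 2)) ^ j * ((1 + θ) / 2) ^ t * (1 + 1 / c₀) +
        2 * (t * s) ^ (m + 1)) := by
  have hq : 0 < q - p := by
    by_contra h
    have : κ * (q - p) ≤ 0 := mul_nonpos_of_nonneg_of_nonpos hκ.le (not_lt.mp h)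
    linarith
  have hGd : ∀ m b y, Gd θ H m b y → b ≤ |y| := by
    intro m b y h
    cases m with
    | zero => exact h
    | succ m => exact h.1
  have hB0 : 0 ≤ 2 * (H : ℝ) / (θ - 1) := div_nonneg (by positivity) (by linarith)
  have hr0 : 0 ≤ (1 + s) / ((1 + θ) / 2) := by positivity
  induction t with
  | zero =>
    intro m j b y hb hG hB _
    rw [pow_zero, mul_one] at hB
    have hy := hGd m b y hG
    have hy1 : 1 ≤ |y| := by linarith
    refine (big hθ hκ hpq hs j y (hB.trans hy)).trans ?_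
    have h1 : 0 ≤ (q - p) * ((1 + s) / ((1 + θ) / 2)) ^ j := by positivity
    calc (q - p) * ((1 + s) / ((1 + θ) / 2)) ^ j / |y| ≤ (q - p) * ((1 + s) / ((1 + θ) / 2)) ^ j := div_le_self h1 hy1
      _ = (q - p) * (((1 + s) / ((1 + θ) / 2)) ^ j * ((1 + θ) / 2) ^ 0 * (1 + 0) + 0) := by ring
      _ ≤ _ := by gcongr <;> positivity
  | succ t ih =>
    intro m j b y hb hG hB hZ
    have hy := hGd m b y hG
    have hy0 : 0 < |y| := by linarith
    cases j with
    | zero =>
      refine (RR_zero hκ hpq (abs_pos.mp hy0)).trans ?_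
      have h1 : (q - p) / |y| ≤ (q - p) * (1 / c₀) := by
        rw [div_eq_mul_one_div]
        gcongr
        exact hb.trans hy
      refine h1.trans ?_
      have h2 : 1 ≤ ((1 + θ) / 2) ^ (t + 1) := one_le_pow₀ (by linarith)
      gcongr
      rw [pow_zero, one_mul]
      have h3 : 0 < 1 / c₀ := by positivity
      have h4 : 0 ≤ 2 * (((t + 1 : ℕ) : ℝ) * s) ^ (m + 1) := by positivity
      nlinarith
    | succ j =>
      have hZ' : ∀ i < j, ZZ θ g κ σ p q i ≤ 2 * (q - p) := fun i hi => hZ i (by omega)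
      have hθ0 : 0 < θ := by linarith
      have hbθ : c₀ ≤ b * θ := by nlinarith
      have hBt : 2 * H / (θ - 1) + 1 ≤ b * θ * θ ^ t := by
        calc _ ≤ b * θ ^ (t + 1) := hB
          _ = _ := by ring
      -- the digit zero
      have hG0 : Gd θ H m (b * θ) (θ * y) := by
        cases m with
        | zero =>
          show b * θ ≤ |θ * y|
          rw [abs_mul, abs_of_pos hθ0]
          nlinarith
        | succ m =>
          refine ⟨?_, fun d h hh hhH => ?_⟩
          · rw [abs_mul, abs_of_pos hθ0]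
            nlinarith
          · have h1 := hG.2 (d + 1) h hh hhH
            have e1 : b * θ * θ ^ (d + 1) = b * θ ^ (d + 1 + 1) := by ring
            have e2 : θ * y * θ ^ (d + 1) + h = y * θ ^ (d + 1 + 1) + h := by ring
            rw [e1, e2]
            exact h1
      have h0 := ih m j (b * θ) (θ * y) hbθ hG0 hBt hZ'
      -- the other digits
      have hne : ∀ h ∈ (Finset.Icc (-(H : ℤ)) H).erase 0, ‖c h * e (h * σ j) * RR θ H c κ σ p q j (θ * y + h)‖ ≤
          ‖c h‖ * ((q - p) * (((1 + s) / ((1 + θ) / 2)) ^ j * ((1 + θ) / 2) ^ t * (1 + 1 / c₀) +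
            2 * (t * s) ^ m)) := by
        intro h hh
        obtain ⟨hh0, hh1⟩ := Finset.mem_erase.mp hh
        rw [Finset.mem_Icc] at hh1
        rw [norm_mul, norm_mul, norm_e, mul_one]
        refine mul_le_mul_of_nonneg_left ?_ (norm_nonneg _)
        cases m with
        | zero =>
          refine (RR_le hg hg0 (by linarith) j _).trans ((hZ j (by omega)).trans ?_)
          have h1 : 0 ≤ ((1 + s) / ((1 + θ) / 2)) ^ j * ((1 + θ) / 2) ^ t * (1 + 1 / c₀) := by positivity
          rw [pow_zero, mul_one]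
          nlinarith
        | succ m =>
          have h1 := hG.2 0 h hh0 (abs_le.mpr ⟨hh1.1, hh1.2⟩)
          rw [zero_add, pow_one] at h1
          have e2 : θ * y + h = y * θ + h := by ring
          rw [e2]
          exact ih m j (b * θ) (y * θ + h) hbθ h1 hBt hZ'
      rw [RR_succ' hc0]
      refine (norm_add_le _ _).trans ?_
      have h1 : ‖∑ h ∈ (Finset.Icc (-(H : ℤ)) H).erase 0, c h * e (h * σ j) * RR θ H c κ σ p q j (θ * y + h)‖ ≤
          s * ((q - p) * (((1 + s) / ((1 + θ) / 2)) ^ j * ((1 + θ) / 2) ^ t * (1 + 1 / c₀) +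
            2 * (t * s) ^ m)) := by
        refine (norm_sum_le _ _).trans ((Finset.sum_le_sum hne).trans ?_)
        rw [← Finset.sum_mul]
        exact mul_le_mul_of_nonneg_right (nm_erase hc0 hs) (by positivity)
      refine (add_le_add h0 h1).trans ?_
      have e1 : (q - p) * (((1 + s) / ((1 + θ) / 2)) ^ j * ((1 + θ) / 2) ^ t * (1 + 1 / c₀) +
          2 * (t * s) ^ (m + 1)) + s * ((q - p) * (((1 + s) / ((1 + θ) / 2)) ^ j * ((1 + θ) / 2) ^ t * (1 + 1 / c₀) +
            2 * (t * s) ^ m)) =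
          (q - p) * (((1 + s) * ((1 + s) / ((1 + θ) / 2)) ^ j * ((1 + θ) / 2) ^ t * (1 + 1 / c₀)) +
            2 * ((t * s) ^ (m + 1) + s * (t * s) ^ m)) := by ring
      rw [e1]
      have e2 : (1 + s) * ((1 + s) / ((1 + θ) / 2)) ^ j * ((1 + θ) / 2) ^ t =
          ((1 + s) / ((1 + θ) / 2)) ^ (j + 1) * ((1 + θ) / 2) ^ (t + 1) := by
        rw [pow_succ, pow_succ]
        have : (1 + θ) / 2 ≠ 0 := by positivity
        field_simp
      rw [e2]
      have h2 : (t * s) ^ (m + 1) + s * (t * s) ^ m ≤ (((t + 1 : ℕ) : ℝ) * s) ^ (m + 1) := by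
        have ht0 : (0 : ℝ) ≤ t := Nat.cast_nonneg _
        push_cast
        calc (t * s) ^ (m + 1) + s * (t * s) ^ m = ((t + 1) * s) * (t * s) ^ m := by ring
          _ ≤ ((t + 1) * s) * ((t + 1) * s) ^ m := by
              gcongr
              linarith
          _ = ((t + 1) * s) ^ (m + 1) := by ring
      gcongr

end

theorem cluster' {θ : ℝ} (hθ : 1 < θ) (k : ℕ) : ∃ C s₁ : ℝ, 0 < C ∧ 0 < s₁ ∧ ∀ (H D : ℕ), Few θ H k D →
    ∀ (c : ℤ → ℂ) (g : ℝ → ℝ) (s : ℝ), (∀ t, gp H c t = g t) → (∀ t, 0 ≤ g t) → c 0 = 1 → nm H c ≤ 1 + s →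
    ((D : ℝ) + 1) * s ≤ s₁ → ∀ N : ℕ, N * (((D : ℝ) + 1) * s) ^ k ≤ 1 → ∀ (κ : ℝ) (σ : ℕ → ℝ) (p q : ℝ), 0 < κ →
    1 ≤ κ * (q - p) → |(∫ x in p..q, ∏ n ∈ Finset.range N, g (κ * x * θ ^ n + σ n)) - (q - p)| ≤
      C * (((D : ℝ) + 1) * s) * (q - p) := by
  have hθ0 : 0 < θ := by linarith
  set θ' : ℝ := (1 + θ) / 2 with hθ'
  have hθ'1 : 1 < θ' := by rw [hθ']; linarith
  have hθ'θ : θ' ≤ θ := by rw [hθ']; linarith
  -- the ratio
  set r₀ : ℝ := (1 + θ') / 2 / θ' with hr₀
  have hr₀0 : 0 < r₀ := by positivity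
  have hr₀1 : r₀ < 1 := by
    rw [hr₀, div_lt_one (by linarith)]
    linarith
  obtain ⟨m₀, hm₀⟩ : ∃ m₀ : ℕ, θ ^ 2 * r₀ ^ m₀ ≤ 1 := by
    obtain ⟨m₀, hm₀⟩ := exists_pow_lt_of_lt_one (show (0 : ℝ) < 1 / θ ^ 2 by positivity) hr₀1
    refine ⟨m₀, ?_⟩
    rw [lt_div_iff₀ (by positivity)] at hm₀
    linarith [mul_comm (r₀ ^ m₀) (θ ^ 2)]
  set C : ℝ := 2 * m₀ + 2 / (1 - r₀) + 2 with hC
  have h1r : 0 < 1 - r₀ := by linarith
  have hC0 : 0 < C := by positivity
  refine ⟨C, min (min ((θ' - 1) / 2) 1) (1 / C), hC0, by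
    have : 0 < (θ' - 1) / 2 := by linarith
    positivity, ?_⟩
  intro H D hfew c g s hg hg0 hc0 hs hss N hN κ σ p q hκ hpq
  obtain ⟨c₀, hc₀, hD, hfew⟩ := hfew
  have hq : 0 < q - p := by
    by_contra h
    have : κ * (q - p) ≤ 0 := mul_nonpos_of_nonneg_of_nonpos hκ.le (not_lt.mp h)
    linarith
  have hs0 : 0 ≤ s := (Finset.sum_nonneg fun h _ => norm_nonneg _).trans (nm_erase hc0 hs)
  have hDr : (0 : ℝ) ≤ D := Nat.cast_nonneg _
  have hsD : s ≤ (D + 1) * s := by nlinarith
  have hsD' : D * s ≤ (D + 1) * s := by nlinarith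
  have hs1 : s ≤ (θ' - 1) / 2 := hsD.trans (hss.trans ((min_le_left _ _).trans (min_le_left _ _)))
  have hs2 : (D + 1) * s ≤ 1 := hss.trans ((min_le_left _ _).trans (min_le_right _ _))
  have hs3 : (D + 1) * s ≤ 1 / C := hss.trans (min_le_right _ _)
  have hr : (1 + s) / θ' ≤ r₀ := by
    rw [hr₀]
    gcongr
    linarith
  have hr0 : 0 ≤ (1 + s) / θ' := by positivity
  -- the size of the constant
  have hB0 : 0 ≤ 2 * (H : ℝ) / (θ - 1) := div_nonneg (by positivity) (by linarith)
  have hc₀' : 1 + 1 / c₀ ≤ 2 * θ ^ D := by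
    have h1 : 1 ≤ θ ^ D := one_le_pow₀ hθ.le
    have h2 : 1 / c₀ ≤ θ ^ D := by
      rw [div_le_iff₀ hc₀]
      linarith [mul_comm c₀ (θ ^ D)]
    linarith
  -- strong induction
  have key : ∀ M : ℕ, M ≤ N → (∀ i < M, ZZ θ g κ σ p q i ≤ 2 * (q - p)) ∧
      |ZZ θ g κ σ p q M - (q - p)| ≤ C * ((D + 1) * s) * (q - p) := by
    intro M hM
    induction M with
    | zero =>
      refine ⟨fun i hi => absurd hi (Nat.not_lt_zero _), ?_⟩
      have : ZZ θ g κ σ p q 0 = q - p := by
        unfold ZZ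
        simp
      rw [this, sub_self, abs_zero]
      positivity
    | succ M ih =>
      obtain ⟨i1, i2⟩ := ih (by omega)
      have hZM : ∀ i < M + 1, ZZ θ g κ σ p q i ≤ 2 * (q - p) := by
        intro i hi
        rcases Nat.lt_succ_iff_lt_or_eq.mp hi with h | h
        · exact i1 i h
        · subst h
          have h1 := (abs_le.mp i2).2
          have h2 : C * ((D + 1) * s) ≤ 1 := by
            rw [le_div_iff₀ hC0] at hs3
            linarith
          nlinarith
      refine ⟨hZM, ?_⟩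
      -- the increments
      have hinc : ∀ j ∈ Finset.range (M + 1), |ZZ θ g κ σ p q (j + 1) - ZZ θ g κ σ p q j| ≤
          s * ((q - p) * ((if j < D * m₀ then 2 else 0) + (if j < D * m₀ then 0 else 2 * r₀ ^ (j - D * m₀)) +
            2 * (D * s) ^ (k + 1))) := by
        intro j hj
        rw [Finset.mem_range] at hj
        by_cases hjD : j < D * m₀
        · rw [if_pos hjD, if_pos hjD]
          refine incr hc0 hg hs (by positivity) j fun h hh hhH => ?_
          refine (RR_le hg hg0 (by linarith) j _).trans ((hZM j hj).trans ?_)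
          have : 0 ≤ 2 * (D * s) ^ (k + 1) := by positivity
          nlinarith
        · rw [if_neg hjD, if_neg hjD, zero_add]
          refine incr hc0 hg hs (by positivity) j fun h hh hhH => ?_
          refine (mid' hθ hκ hpq hs hs0 hc0 hg hg0 hc₀ D k j c₀ h le_rfl (hfew h hh hhH) hD
            (fun i hi => hZM i (by omega))).trans ?_
          rw [← hθ']
          have hj' : j = D * m₀ + (j - D * m₀) := by omega
          have e1 : ((1 + s) / θ') ^ j * θ' ^ D * (1 + 1 / c₀) ≤ 2 * r₀ ^ (j - D * m₀) := by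
            calc ((1 + s) / θ') ^ j * θ' ^ D * (1 + 1 / c₀) ≤ r₀ ^ j * θ ^ D * (2 * θ ^ D) := by gcongr
              _ = 2 * (θ ^ 2 * r₀ ^ m₀) ^ D * r₀ ^ (j - D * m₀) := by
                  conv_lhs => rw [hj']
                  rw [pow_add, mul_pow, ← pow_mul, ← pow_mul, mul_comm m₀ D]
                  ring
              _ ≤ 2 * 1 ^ D * r₀ ^ (j - D * m₀) := by gcongr
              _ = _ := by rw [one_pow, mul_one]
          gcongr
      have htel : ZZ θ g κ σ p q (M + 1) - (q - p) =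
          ∑ j ∈ Finset.range (M + 1), (ZZ θ g κ σ p q (j + 1) - ZZ θ g κ σ p q j) := by
        rw [Finset.sum_range_sub (fun j => ZZ θ g κ σ p q j)]
        congr 1
        unfold ZZ
        simp
      rw [htel]
      refine (Finset.abs_sum_le_sum_abs _ _).trans ((Finset.sum_le_sum hinc).trans ?_)
      rw [← Finset.mul_sum, ← Finset.mul_sum, Finset.sum_add_distrib, Finset.sum_add_distrib, Finset.sum_const,
        Finset.card_range, nsmul_eq_mul]
      have g0 : ∑ j ∈ Finset.range (M + 1), (if j < D * m₀ then (2 : ℝ) else 0) ≤ 2 * (D * m₀) := by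
        rw [← Finset.sum_filter, Finset.sum_const, nsmul_eq_mul]
        have h1 : ((Finset.range (M + 1)).filter (fun j => j < D * m₀)).card ≤ D * m₀ := by
          calc _ ≤ (Finset.range (D * m₀)).card := Finset.card_le_card fun j hj => by
                rw [Finset.mem_filter] at hj
                exact Finset.mem_range.mpr hj.2
            _ = _ := Finset.card_range _
        have h2 : (((Finset.range (M + 1)).filter (fun j => j < D * m₀)).card : ℝ) ≤ D * m₀ := by exact_mod_cast h1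
        linarith
      have g1 : ∑ j ∈ Finset.range (M + 1), (if j < D * m₀ then (0 : ℝ) else 2 * r₀ ^ (j - D * m₀)) ≤
          2 / (1 - r₀) := by
        have e1 : ∑ j ∈ Finset.range (M + 1), (if j < D * m₀ then (0 : ℝ) else 2 * r₀ ^ (j - D * m₀)) ≤
            ∑ i ∈ Finset.range (M + 1), 2 * r₀ ^ i := by
          have e2 : ∑ j ∈ Finset.range (M + 1), (if j < D * m₀ then (0 : ℝ) else 2 * r₀ ^ (j - D * m₀)) =
              ∑ j ∈ (Finset.range (M + 1)).filter (fun j => ¬ j < D * m₀), 2 * r₀ ^ (j - D * m₀) := by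
            rw [Finset.sum_filter]
            exact Finset.sum_congr rfl fun j _ => by split_ifs <;> simp_all
          rw [e2]
          calc ∑ j ∈ (Finset.range (M + 1)).filter (fun j => ¬ j < D * m₀), 2 * r₀ ^ (j - D * m₀) =
              ∑ i ∈ ((Finset.range (M + 1)).filter (fun j => ¬ j < D * m₀)).image (fun j => j - D * m₀), 2 * r₀ ^ i := by
                rw [Finset.sum_image]
                intro j hj j' hj' h
                rw [Finset.mem_coe, Finset.mem_filter] at hj hj'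
                simp only at h
                omega
            _ ≤ _ := by
                refine Finset.sum_le_sum_of_subset_of_nonneg ?_ fun _ _ _ => by positivity
                intro i hi
                rw [Finset.mem_image] at hi
                obtain ⟨j, hj, rfl⟩ := hi
                rw [Finset.mem_filter, Finset.mem_range] at hj
                rw [Finset.mem_range]
                omega
        refine e1.trans ?_
        rw [← Finset.mul_sum, geom_sum_eq hr₀1.ne]
        have e1 : (r₀ ^ (M + 1) - 1) / (r₀ - 1) = (1 - r₀ ^ (M + 1)) / (1 - r₀) := by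
          rw [← neg_div_neg_eq]; congr 1 <;> ring
        rw [e1, ← mul_div_assoc]
        have : 0 ≤ r₀ ^ (M + 1) := by positivity
        gcongr
        linarith
      have g2 : ((M + 1 : ℕ) : ℝ) * (2 * (D * s) ^ (k + 1)) ≤ 2 := by
        have h1 : ((M + 1 : ℕ) : ℝ) ≤ N := by exact_mod_cast hM
        calc ((M + 1 : ℕ) : ℝ) * (2 * (D * s) ^ (k + 1)) ≤ (N : ℝ) * (2 * ((D + 1) * s) ^ (k + 1)) := by gcongr
          _ = 2 * ((N * ((D + 1) * s) ^ k) * ((D + 1) * s)) := by ring
          _ ≤ 2 * (1 * 1) := by gcongr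
          _ = 2 := by ring
      calc s * ((q - p) * (∑ j ∈ Finset.range (M + 1), (if j < D * m₀ then (2 : ℝ) else 0) +
            ∑ j ∈ Finset.range (M + 1), (if j < D * m₀ then (0 : ℝ) else 2 * r₀ ^ (j - D * m₀)) +
            ((M + 1 : ℕ) : ℝ) * (2 * (D * s) ^ (k + 1)))) ≤
          s * ((q - p) * (2 * (D * m₀) + 2 / (1 - r₀) + 2)) := by gcongr
        _ ≤ s * ((q - p) * (C * (D + 1))) := by
            have h2 : 0 ≤ 2 / (1 - r₀) := by positivity
            have h3 : (0 : ℝ) ≤ m₀ := Nat.cast_nonneg _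
            have h4 : 2 * (D * m₀) + 2 / (1 - r₀) + 2 ≤ C * (D + 1) := by
              rw [hC]
              nlinarith [mul_nonneg h2 hDr]
            gcongr
        _ = C * ((D + 1) * s) * (q - p) := by ring
  exact (key N le_rfl).2

end Pool.Agent.Helper64.KX
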